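import Pool.Agent.Lib.MP_b5021c_nt.IfaceK1

/-!
# Row ZCO: zero counting for continuous families of polynomials

The number of zeros in the open unit disc is `(2 pi i)^(-1)` times the circle integral of the logarithmic
derivative; that integral is continuous in the parameter and integer valued.
-/

namespace Pool.Agent.MP_b5021c_nt.H67

open Polynomial Filter Topology MeasureTheory Set

/-- Sum of simple poles. -/
theorem int_poles (s : Multiset ℂ) : (∀ α ∈ s, ‖α‖ ≠ 1) →
    CircleIntegrable (fun z => (s.map fun α => 1 / (z - α)).sum) 0 1 ∧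
    (∮ z in C(0, 1), (s.map fun α => 1 / (z - α)).sum)
      = 2 * Real.pi * Complex.I * ((s.filter fun z => ‖z‖ < 1).card : ℂ) := by
  classical
  induction s using Multiset.induction_on with
  | empty =>
    intro _
    refine ⟨?_, ?_⟩
    · simp
    · simp [circleIntegral]
  | cons a s ih =>
    intro h
    obtain ⟨h1, h2⟩ := ih fun α hα => h α (Multiset.mem_cons_of_mem hα)
    have ha : ‖a‖ ≠ 1 := h a (Multiset.mem_cons_self a s)
    have hi : CircleIntegrable (fun z => 1 / (z - a)) 0 1 := by
      simp only [one_div]
      rw [circleIntegrable_sub_inv_iff]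
      right
      simpa using ha
    have hsum : ∀ z : ℂ, ((a ::ₘ s).map fun α => 1 / (z - α)).sum
        = 1 / (z - a) + (s.map fun α => 1 / (z - α)).sum := fun z => by
      rw [Multiset.map_cons, Multiset.sum_cons]
    simp only [hsum]
    refine ⟨hi.add h1, ?_⟩
    rw [circleIntegral.integral_add hi h1, h2]
    rcases lt_or_gt_of_ne ha with hlt | hgt
    · have e : (∮ z in C(0, 1), 1 / (z - a)) = 2 * Real.pi * Complex.I := by
        simp only [one_div]
        exact circleIntegral.integral_sub_inv_of_mem_ball (by simpa using hlt)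
      rw [e, Multiset.filter_cons_of_pos (p := fun z : ℂ => ‖z‖ < 1) s hlt, Multiset.card_cons]
      push_cast
      ring
    · have e : (∮ z in C(0, 1), 1 / (z - a)) = 0 := by
        refine Complex.circleIntegral_eq_zero_of_differentiable_on_off_countable
          zero_le_one countable_empty ?_ ?_
        · intro z hz
          have : z - a ≠ 0 := by
            intro h0
            rw [sub_eq_zero] at h0
            rw [h0] at hz
            simp only [Metric.mem_closedBall, dist_zero_right] at hz
            linarith
          have hd : DifferentiableAt ℂ (fun z : ℂ => 1 / (z - a)) z :=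
            DifferentiableAt.div (by fun_prop) (by fun_prop) this
          exact hd.continuousAt.continuousWithinAt
        · intro z hz
          have : z - a ≠ 0 := by
            intro h0
            rw [sub_eq_zero] at h0
            rw [h0] at hz
            have := hz.1
            simp only [Metric.mem_ball, dist_zero_right] at this
            linarith
          exact DifferentiableAt.div (by fun_prop) (by fun_prop) this
      have hn : ¬ ‖a‖ < 1 := not_lt.mpr hgt.le
      rw [e, Multiset.filter_cons_of_neg (p := fun z : ℂ => ‖z‖ < 1) s hn, zero_add]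

/-- The number of zeros as an integral of the logarithmic derivative. -/
theorem int_logDeriv (p : ℂ[X]) (hp : ∀ z : ℂ, ‖z‖ = 1 → p.eval z ≠ 0) :
    (∮ z in C(0, 1), p.derivative.eval z / p.eval z) = 2 * Real.pi * Complex.I * (nz p : ℂ) := by
  have h1 : ∀ α ∈ p.roots, ‖α‖ ≠ 1 := fun α hα h => hp α h (isRoot_of_mem_roots hα)
  have h2 := (int_poles p.roots h1).2
  unfold nz
  rw [← h2]
  refine circleIntegral.integral_congr zero_le_one ?_
  intro z hz
  have hz1 : ‖z‖ = 1 := by simpa using hz
  exact (IsAlgClosed.splits p).eval_derivative_div_eval_of_ne_zero (hp z hz1)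

theorem zco : ZcoS := by
  intro p N hN hc hp
  have hev : ∀ t : Icc (0 : ℝ) 1, ∀ z : ℂ, (p t).eval z
      = ∑ i ∈ Finset.range (N + 1), (p t).coeff i * z ^ i := fun t z =>
    eval_eq_sum_range' (Nat.lt_succ_of_le (hN t t.2)) z
  have hdv : ∀ t : Icc (0 : ℝ) 1, ∀ z : ℂ, (p t).derivative.eval z
      = ∑ i ∈ Finset.range (N + 1), (p t).coeff (i + 1) * (i + 1) * z ^ i := fun t z => by
    have h1 : (p t).derivative.natDegree < N + 1 :=
      Nat.lt_succ_of_le ((natDegree_derivative_le _).trans ((Nat.sub_le _ _).trans (hN t t.2)))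
    rw [eval_eq_sum_range' h1 z]
    refine Finset.sum_congr rfl fun i _ => ?_
    rw [coeff_derivative]
  have hcc : ∀ i, Continuous fun t : Icc (0 : ℝ) 1 => (p t).coeff i := fun i =>
    continuousOn_iff_continuous_domRestrict.mp (hc i)
  have hint : ∀ t : Icc (0 : ℝ) 1, (∮ z in C(0, 1), (p t).derivative.eval z / (p t).eval z)
      = 2 * Real.pi * Complex.I * (nz (p t) : ℂ) := fun t => int_logDeriv _ (hp t t.2)
  have hcont : Continuous fun t : Icc (0 : ℝ) 1 =>
      (∮ z in C(0, 1), (p t).derivative.eval z / (p t).eval z) := by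
    unfold circleIntegral
    refine intervalIntegral.continuous_parametric_intervalIntegral_of_continuous' ?_ _ _
    have hE : Continuous fun q : Icc (0 : ℝ) 1 × ℝ => (p q.1).eval (circleMap 0 1 q.2) := by
      simp only [hev]
      refine continuous_finsetSum _ fun i _ => ?_
      exact ((hcc i).comp continuous_fst).mul (((continuous_circleMap 0 1).comp continuous_snd).pow i)
    have hD : Continuous fun q : Icc (0 : ℝ) 1 × ℝ => (p q.1).derivative.eval (circleMap 0 1 q.2) := by
      simp only [hdv]
      refine continuous_finsetSum _ fun i _ => ?_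
      exact (((hcc (i + 1)).comp continuous_fst).mul continuous_const).mul
        (((continuous_circleMap 0 1).comp continuous_snd).pow i)
    have hM : Continuous fun q : Icc (0 : ℝ) 1 × ℝ => deriv (circleMap 0 1) q.2 := by
      simp only [deriv_circleMap]
      exact ((continuous_circleMap 0 1).comp continuous_snd).mul continuous_const
    have h0 : ∀ q : Icc (0 : ℝ) 1 × ℝ, (p q.1).eval (circleMap 0 1 q.2) ≠ 0 := fun q =>
      hp q.1 q.1.2 _ (by simp)
    exact hM.smul (hD.div hE h0)
  have hnz : Continuous fun t : Icc (0 : ℝ) 1 => (nz (p t) : ℂ) := by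
    have h2 : (2 * Real.pi * Complex.I : ℂ) ≠ 0 := Complex.two_pi_I_ne_zero
    have e : (fun t : Icc (0 : ℝ) 1 => (nz (p t) : ℂ)) = fun t : Icc (0 : ℝ) 1 =>
        (2 * Real.pi * Complex.I : ℂ)⁻¹ * (∮ z in C(0, 1), (p t).derivative.eval z / (p t).eval z) := by
      funext t
      rw [hint t, inv_mul_cancel_left₀ h2]
    rw [e]
    exact continuous_const.mul hcont
  have hnr : Continuous fun t : Icc (0 : ℝ) 1 => (nz (p t) : ℝ) := by
    have := Complex.continuous_re.comp hnz
    refine this.congr fun t => ?_
    simp
  have hnn : Continuous fun t : Icc (0 : ℝ) 1 => nz (p t) :=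
    Nat.isClosedEmbedding_coe_real.isInducing.continuous_iff.mpr hnr
  have := (isPreconnected_univ (α := Icc (0 : ℝ) 1)).constant hnn.continuousOn
    (mem_univ (⟨0, by simp⟩ : Icc (0 : ℝ) 1)) (mem_univ (⟨1, by simp⟩ : Icc (0 : ℝ) 1))
  exact this

end Pool.Agent.MP_b5021c_nt.H67
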