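import Pool.Agent.Lib.MP_b5021c_nt.IfaceB

/-!
# Board b5, row A7 for one complex variable

The Mahler measure of a polynomial without zeros in the open unit disc is the modulus of its
constant coefficient.
-/

namespace Pool.Agent.B5.H67

open Polynomial

theorem a7c : A7S := by
  intro p hp
  have h0 : p.eval 0 ≠ 0 := hp 0 (by simp)
  have hp0 : p ≠ 0 := by
    rintro rfl
    exact h0 (by simp)
  have hroot : ∀ r ∈ p.roots, max 1 ‖r‖ = ‖r‖ := by
    intro r hr
    have hr0 : p.eval r = 0 := (mem_roots hp0).1 hr
    refine max_eq_right ?_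
    by_contra hlt
    exact hp r (not_le.1 hlt) hr0
  rw [mahlerMeasure_eq_leadingCoeff_mul_prod_roots, Multiset.map_congr rfl hroot,
    (IsAlgClosed.splits p).coeff_zero_eq_leadingCoeff_mul_prod_roots]
  have hprod : ‖p.roots.prod‖ = (p.roots.map (fun a ↦ ‖a‖)).prod := by
    induction p.roots using Multiset.induction_on with
    | empty => simp
    | cons a s ih => simp [ih]
  simp [hprod]

end Pool.Agent.B5.H67
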