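import Pool.Agent.Lib.MP_b5021c_nt.IfaceK2

/-!
# Row HUN: the completion is unitary
-/

namespace Pool.Agent.MP_b5021c_nt.H67

open Polynomial Pool.Agent.MP_b5021c_nt

theorem eraseNone_compl {ι : Type} [Fintype ι] [DecidableEq ι] (T : Finset (Option ι)) :
    Finset.eraseNone Tᶜ = (Finset.eraseNone T)ᶜ := by
  ext x
  simp [Finset.mem_eraseNone, Finset.mem_compl]

theorem hun : HunS := by
  intro ι _ _ D N hN
  have hr : ∀ S, ((D S).reflect N).natDegree ≤ N := fun S => by
    have h1 := natDegree_reflect_le (N := N) (p := D S)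
    have h2 := hN S
    omega
  refine ⟨N, 1, Or.inl rfl, ?_, ?_⟩
  · intro T
    unfold join rev
    split_ifs
    · exact hr _
    · exact hN _
  · intro T
    unfold join rev
    rw [eraseNone_compl]
    by_cases h : none ∈ T
    · have h' : none ∉ Tᶜ := by simpa using h
      rw [if_neg h', if_pos h, reflect_reflect]
      simp
    · have h' : none ∈ Tᶜ := by simpa using h
      rw [if_pos h', if_neg h, compl_compl]
      simp

end Pool.Agent.MP_b5021c_nt.H67
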