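import Pool.Agent.Lib.MP_b5021c_nt.H67.Pun

/-!
# Board b5, stage 2: the exact gain in the case of a pure factor (tangent line of the logarithm at
the mean)
-/

namespace Pool.Agent.B5.H67

open Real Filter Topology

/-- (PUN, exact form) the gain in the case of a pure factor. -/
def PunS2 : Prop := ∀ (O : Type) [CommRing O] [IsDomain O] [IsPrincipalIdealRing O] [Coef O]
  (p q : RO O), (∀ z : Circle, evR z q ≠ 0) → q + p ≠ 0 →
    (∀ z : Circle, ‖evR z (q + p)‖ + ‖evR z p‖ = ‖evR z q‖) →
      M (q + p) ≤ M q * (1 - ‖mn p q‖)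

theorem pun2 (hE : EvRS) (hZ : ZfinS) : PunS2 := by
  intro O _ _ _ _ p q hq hqp h
  classical
  -- the bad points
  set bad : Set ℂ := (fun z : Circle => (z : ℂ)) '' {z : Circle | evR z (q + p) = 0} with hbad
  have hbadf : bad.Finite := (hZ O (q + p) hqp).image _
  have hcirc : ∀ z : ℂ, ‖z‖ = 1 → ∃ w : Circle, (w : ℂ) = z ∧ ∀ r : RO O, evL z r = evR w r := by
    intro z hz
    exact ⟨⟨z, mem_sphere_zero_iff_norm.mpr hz⟩, rfl, fun r => H70.evL_eq z hz r⟩
  -- integrability of the quotient
  have hquot : CircleIntegrable (fun z => ‖evL z p / evL z q‖) 0 1 := by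
    have h1 : Continuous fun θ : ℝ => ‖evR (Circle.exp θ) p / evR (Circle.exp θ) q‖ := by
      refine Continuous.norm (Continuous.div ?_ ?_ ?_)
      · exact ((hE O).2.2.2 p).comp Circle.exp.continuous
      · exact ((hE O).2.2.2 q).comp Circle.exp.continuous
      · intro θ
        exact hq _
    have h2 : (fun θ : ℝ => ‖evL (circleMap 0 1 θ) p / evL (circleMap 0 1 θ) q‖) =
        fun θ : ℝ => ‖evR (Circle.exp θ) p / evR (Circle.exp θ) q‖ := by
      funext θ
      have hz : circleMap 0 1 θ = ((Circle.exp θ : Circle) : ℂ) := by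
        rw [Circle.coe_exp, circleMap]
        simp
      rw [hz, (hE O).1, (hE O).1]
    unfold CircleIntegrable
    rw [h2]
    exact h1.intervalIntegrable _ _
  set A : ℝ := circleAverage (fun z => Real.log ‖evL z (q + p)‖) 0 1 with hA
  set B : ℝ := circleAverage (fun z => Real.log ‖evL z q‖) 0 1 with hB
  set b : ℝ := circleAverage (fun z => ‖evL z p / evL z q‖) 0 1 with hb
  have key : ∀ t : ℝ, 0 < t → A - B + t⁻¹ * b ≤ t⁻¹ - 1 + Real.log t := by
    intro t ht
    set F : ℂ → ℝ := fun z => Real.log ‖evL z (q + p)‖ - Real.log ‖evL z q‖ +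
      t⁻¹ • ‖evL z p / evL z q‖ with hF
    set F' : ℂ → ℝ := fun z => if z ∈ bad then t⁻¹ - 1 + Real.log t else F z with hF'
    have hFF : F =ᶠ[codiscreteWithin (Metric.sphere (0 : ℂ) |1|)] F' := by
      rw [Filter.eventuallyEq_iff_exists_mem]
      refine ⟨badᶜ, compl_finite_mem_codiscreteWithin hbadf, fun z hz => ?_⟩
      rw [hF']
      exact (if_neg hz).symm
    have hquot' : CircleIntegrable (fun z => t⁻¹ • ‖evL z p / evL z q‖) 0 1 :=
      hquot.const_fun_smul
    have hint : CircleIntegrable F 0 1 := ((logint (q + p)).sub (logint q)).add hquot'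
    have hint' : CircleIntegrable F' 0 1 := hint.congr_codiscreteWithin hFF
    have hle : ∀ z ∈ Metric.sphere (0 : ℂ) |1|, F' z ≤ t⁻¹ - 1 + Real.log t := by
      intro z hz
      rw [hF']
      simp only
      split_ifs with hzb
      · exact le_rfl
      · have hz1 : ‖z‖ = 1 := by simpa using hz
        obtain ⟨w, hw, hev⟩ := hcirc z hz1
        have hne : evR w (q + p) ≠ 0 := by
          intro h0
          exact hzb ⟨w, h0, hw⟩
        have hqw := hq w
        have hqn : 0 < ‖evR w q‖ := norm_pos_iff.2 hqw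
        have hn : 0 < ‖evR w (q + p)‖ := norm_pos_iff.2 hne
        have hh := h w
        rw [hF]
        simp only
        rw [hev, hev, hev, norm_div, ← Real.log_div hn.ne' hqn.ne', smul_eq_mul]
        have h1 : ‖evR w (q + p)‖ / ‖evR w q‖ = 1 - ‖evR w p‖ / ‖evR w q‖ := by
          rw [eq_sub_iff_add_eq, ← add_div, hh, div_self hqn.ne']
        have hpos := div_pos hn hqn
        have h2 := Real.log_le_sub_one_of_pos (mul_pos (inv_pos.2 ht) hpos)
        rw [Real.log_mul (inv_pos.2 ht).ne' hpos.ne', Real.log_inv] at h2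
        rw [h1] at h2 ⊢
        nlinarith [h2]
    have havg := circleAverage_mono_on_of_le_circle hint' hle
    rw [← circleAverage_congr_codiscreteWithin hFF one_ne_zero] at havg
    have hsplit : circleAverage F 0 1 = A - B + t⁻¹ * b := by
      have e1 : circleAverage F 0 1 =
          circleAverage (fun z => Real.log ‖evL z (q + p)‖ - Real.log ‖evL z q‖) 0 1 +
            circleAverage (fun z => t⁻¹ • ‖evL z p / evL z q‖) 0 1 :=
        circleAverage_fun_add ((logint (q + p)).sub (logint q)) hquot'
      rw [e1, circleAverage_fun_sub (logint (q + p)) (logint q), circleAverage_fun_smul,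
        smul_eq_mul]
    rw [hsplit] at havg
    exact havg
  have hmn : ‖mn p q‖ ≤ b := norm_mn_le
  have hexp : 0 < Real.exp (A - B) := Real.exp_pos _
  have h1b : 0 < 1 - b := by
    by_contra hc
    push Not at hc
    have h3 := key (Real.exp (A - B)) hexp
    rw [Real.log_exp] at h3
    have h4 : 0 < (Real.exp (A - B))⁻¹ := inv_pos.2 hexp
    nlinarith [mul_nonneg h4.le (sub_nonneg.2 (by linarith : (1 : ℝ) ≤ b))]
  have h5 := key (1 - b) h1b
  have h6 : (1 - b)⁻¹ * b = (1 - b)⁻¹ - 1 := by
    field_simp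
    ring
  rw [h6] at h5
  have h7 : A ≤ B + Real.log (1 - b) := by linarith
  calc M (q + p) = Real.exp A := rfl
    _ ≤ Real.exp (B + Real.log (1 - b)) := Real.exp_le_exp.2 h7
    _ = Real.exp B * (1 - b) := by rw [Real.exp_add, Real.exp_log h1b]
    _ = M q * (1 - b) := rfl
    _ ≤ M q * (1 - ‖mn p q‖) := by
        refine mul_le_mul_of_nonneg_left (by linarith) ?_
        exact (Real.exp_pos _).le

/-- The norm and the mean: the exact form implies the exponential one. -/
theorem pun_of_pun2 (h2 : PunS2) : PunS := by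
  intro O _ _ _ _ p q hq hqp h
  refine (h2 O p q hq hqp h).trans ?_
  refine mul_le_mul_of_nonneg_left ?_ (Real.exp_pos _).le
  have := Real.add_one_le_exp (-‖mn p q‖)
  linarith

end Pool.Agent.B5.H67
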