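import Pool.Agent.Lib.MP_b5021c_nt.IfaceS2

/-!
# Board b5, row T_JVE: induction in steps of `1/5`
-/

namespace Pool.Agent.B5.H67

open Pool.Agent.MP_b5021c_nt (Eis)

theorem two_le_bVS (x : ℝ) : 2 ≤ bVS x := by
  have h1 : (1 : ℝ) ≤ max 1 x := le_max_left _ _
  have h2 : 0 ≤ Real.log (max 1 x) := Real.log_nonneg h1
  unfold bVS
  linarith

/-- Row T_JVE. -/
theorem jve (h1 : Jv2S) : JveS := by
  have key : ∀ n : ℕ, ∀ N : ℝ, N ≤ (n : ℝ) / 5 → BdV Eis N (bVS N) := by
    intro n
    induction n with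
    | zero =>
      intro N hN P L _ _ _ _ _ phi D hD hV
      have h3 : 1 ≤ N := hV.1
      norm_num at hN
      linarith
    | succ n ih =>
      intro N hN P L _ _ _ _ _ phi D hD hV
      rcases Nat.lt_or_ge (Module.finrank ℤ L) 3 with h4 | h4
      · have h5 : (Module.finrank ℤ L : ℝ) ≤ 2 := by
          exact_mod_cast Nat.lt_succ_iff.mp h4
        exact h5.trans (two_le_bVS N)
      · apply h1 P L phi D N hD hV h4
        intro x hx
        apply ih
        push_cast at hN
        linarith
  intro N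
  obtain ⟨n, hn⟩ := exists_nat_ge (5 * N)
  exact key n N (by linarith)

end Pool.Agent.B5.H67
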