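import Pool.Agent.Lib.MP_b5021c_nt.IfaceS4
import Pool.Agent.Lib.MP_b5021c_nt.IfaceL2

/-!
# Board b5, row U_JW3: class `V`, induction in steps of `1/5` (final form)
-/

namespace Pool.Agent.B5.H67

open Pool.Agent.MP_b5021c_nt (Eis)

theorem bVL_le_of_le {x : ℝ} (hx : x ≤ 200) : bVL x ≤ 2 * max 1 x + 4800 := by
  have h1 : (1 : ℝ) ≤ max 1 x := le_max_left _ _
  unfold bVL
  apply max_le
  · linarith
  · linarith

/-- Row U_JW3. -/
theorem jw3 (h0 : JVLS) (h1 : Jv3S) : Jw3S := by
  have small : ∀ N : ℝ, N ≤ 200 → BdV Eis N (2 * max 1 N + 4800) := by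
    intro N hN P L _ _ _ _ _ phi D hD hV
    exact (h0 N P L phi D hD hV).trans (bVL_le_of_le hN)
  have key : ∀ n : ℕ, ∀ N : ℝ, N ≤ 200 + (n : ℝ) / 5 → BdV Eis N (2 * max 1 N + 4800) := by
    intro n
    induction n with
    | zero =>
      intro N hN
      apply small
      norm_num at hN
      exact hN
    | succ n ih =>
      intro N hN
      rcases le_total N 200 with h6 | h6
      · exact small N h6
      · intro P L _ _ _ _ _ phi D hD hV
        have h9 : N ≤ max 1 N := le_max_right _ _
        rcases Nat.lt_or_ge (Module.finrank ℤ L) 3 with h4 | h4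
        · have h5 : (Module.finrank ℤ L : ℝ) ≤ 2 := by
            exact_mod_cast Nat.lt_succ_iff.mp h4
          linarith
        · have h8 : (Module.finrank ℤ L : ℝ) ≤ 2 * N + 4800 := by
            apply h1 P L phi D N h6 hD hV h4
            intro x hx
            have h7 : x ≤ 200 + (n : ℝ) / 5 := by
              push_cast at hN
              linarith
            intro P' L' _ _ _ _ _ phi' D' hD' hV'
            exact le_min (h0 x P' L' phi' D' hD' hV') (ih x h7 P' L' phi' D' hD' hV')
          linarith
  intro N P L _ _ _ _ _ phi D hD hV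
  obtain ⟨n, hn⟩ := exists_nat_ge (5 * (N - 200))
  exact le_min (h0 N P L phi D hD hV) (key n N (by linarith) P L phi D hD hV)

end Pool.Agent.B5.H67
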