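import Pool.Agent.Lib.MP_b5021c_nt.IfaceS1
import Pool.Agent.Lib.MP_b5021c_nt.B.H70.Mm

/-!
# Board b5, row S_PUN: the gain in the case of a pure factor
-/

namespace Pool.Agent.B5.H67

open Real Filter Topology

section

variable {O : Type} [CommRing O] [Coef O]

theorem logint (Q : RO O) : CircleIntegrable (fun z => Real.log ‖evL z Q‖) 0 1 := by
  by_cases hQ : Q = 0
  · have h : (fun z => Real.log ‖evL z Q‖) = fun _ : ℂ => (0 : ℝ) := by
      funext z
      simp [hQ, evL]
    rw [h]
    exact circleIntegrable_const 0 0 1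
  · obtain ⟨n, q, -, hq⟩ := H70.normalO Q hQ
    have h1 : CircleIntegrable
        (fun z => Real.log ‖(q.map (Coef.emb : O →+* ℂ)).eval z‖) 0 1 :=
      (q.map (Coef.emb : O →+* ℂ)).intervalIntegrable_mahlerMeasure
    have h2 : (fun θ : ℝ => Real.log ‖evL (circleMap 0 1 θ) Q‖) =
        fun θ : ℝ => Real.log ‖(q.map (Coef.emb : O →+* ℂ)).eval (circleMap 0 1 θ)‖ := by
      funext θ
      have hz : ‖circleMap 0 1 θ‖ = 1 := by simp
      rw [H70.evL_eq _ hz, hq, H70.norm_evR_T_mul]
    unfold CircleIntegrable at h1 ⊢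
    rw [h2]
    exact h1

end

theorem norm_mn_le {f : ℂ → ℂ} :
    ‖circleAverage f 0 1‖ ≤ circleAverage (fun z => ‖f z‖) 0 1 := by
  rw [circleAverage_def, circleAverage_def, norm_smul, smul_eq_mul,
    Real.norm_of_nonneg (inv_nonneg.2 two_pi_pos.le)]
  exact mul_le_mul_of_nonneg_left
    (intervalIntegral.norm_integral_le_integral_norm two_pi_pos.le)
    (inv_nonneg.2 two_pi_pos.le)

theorem pun (hE : EvRS) (hZ : ZfinS) : PunS := by
  intro O _ _ _ _ p q hq hqp h
  classical
  -- the bad points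
  set bad : Set ℂ := (fun z : Circle => (z : ℂ)) '' {z : Circle | evR z (q + p) = 0} with hbad
  have hbadf : bad.Finite := (hZ O (q + p) hqp).image _
  have hcirc : ∀ z : ℂ, ‖z‖ = 1 → ∃ w : Circle, (w : ℂ) = z ∧ ∀ r : RO O, evL z r = evR w r := by
    intro z hz
    exact ⟨⟨z, mem_sphere_zero_iff_norm.mpr hz⟩, rfl, fun r => H70.evL_eq z hz r⟩
  -- integrability of the quotient
  have hquot : CircleIntegrable (fun z => ‖evL z p / evL z q‖) 0 1 := by
    have h1 : Continuous fun θ : ℝ => ‖evR (Circle.exp θ) p / evR (Circle.exp θ) q‖ := by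
      refine Continuous.norm (Continuous.div ?_ ?_ ?_)
      · exact ((hE O).2.2.2 p).comp Circle.exp.continuous
      · exact ((hE O).2.2.2 q).comp Circle.exp.continuous
      · intro θ
        exact hq _
    have h2 : (fun θ : ℝ => ‖evL (circleMap 0 1 θ) p / evL (circleMap 0 1 θ) q‖) =
        fun θ : ℝ => ‖evR (Circle.exp θ) p / evR (Circle.exp θ) q‖ := by
      funext θ
      have hz : circleMap 0 1 θ = ((Circle.exp θ : Circle) : ℂ) := by
        rw [Circle.coe_exp, circleMap]
        simp
      rw [hz, (hE O).1, (hE O).1]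
    unfold CircleIntegrable
    rw [h2]
    exact h1.intervalIntegrable _ _
  set F : ℂ → ℝ := fun z => Real.log ‖evL z (q + p)‖ - Real.log ‖evL z q‖ +
    ‖evL z p / evL z q‖ with hF
  set F' : ℂ → ℝ := fun z => if z ∈ bad then 0 else F z with hF'
  have hFF : F =ᶠ[codiscreteWithin (Metric.sphere (0 : ℂ) |1|)] F' := by
    rw [Filter.eventuallyEq_iff_exists_mem]
    refine ⟨badᶜ, compl_finite_mem_codiscreteWithin hbadf, fun z hz => ?_⟩
    rw [hF']
    exact (if_neg hz).symm
  have hint : CircleIntegrable F 0 1 := ((logint (q + p)).sub (logint q)).add hquot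
  have hint' : CircleIntegrable F' 0 1 := hint.congr_codiscreteWithin hFF
  have hle : ∀ z ∈ Metric.sphere (0 : ℂ) |1|, F' z ≤ 0 := by
    intro z hz
    rw [hF']
    simp only
    split_ifs with hzb
    · exact le_rfl
    · have hz1 : ‖z‖ = 1 := by simpa using hz
      obtain ⟨w, hw, hev⟩ := hcirc z hz1
      have hne : evR w (q + p) ≠ 0 := by
        intro h0
        exact hzb ⟨w, h0, hw⟩
      have hqw := hq w
      have hqn : 0 < ‖evR w q‖ := norm_pos_iff.2 hqw
      have hn : 0 < ‖evR w (q + p)‖ := norm_pos_iff.2 hne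
      have hh := h w
      rw [hF]
      simp only
      rw [hev, hev, hev, norm_div, ← Real.log_div hn.ne' hqn.ne']
      have h1 : ‖evR w (q + p)‖ / ‖evR w q‖ = 1 - ‖evR w p‖ / ‖evR w q‖ := by
        rw [eq_sub_iff_add_eq, ← add_div, hh, div_self hqn.ne']
      have h2 := Real.log_le_sub_one_of_pos (div_pos hn hqn)
      rw [h1] at h2 ⊢
      linarith
  have havg := circleAverage_mono_on_of_le_circle hint' hle
  rw [← circleAverage_congr_codiscreteWithin hFF one_ne_zero] at havg
  have hsplit : circleAverage F 0 1 = circleAverage (fun z => Real.log ‖evL z (q + p)‖) 0 1 -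
      circleAverage (fun z => Real.log ‖evL z q‖) 0 1 +
        circleAverage (fun z => ‖evL z p / evL z q‖) 0 1 := by
    rw [← circleAverage_fun_sub (logint (q + p)) (logint q)]
    exact circleAverage_fun_add ((logint (q + p)).sub (logint q)) hquot
  rw [hsplit] at havg
  have hmn : ‖mn p q‖ ≤ circleAverage (fun z => ‖evL z p / evL z q‖) 0 1 := norm_mn_le
  unfold M
  rw [← Real.exp_add]
  refine Real.exp_le_exp.2 ?_
  linarith

end Pool.Agent.B5.H67
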